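import Pool.Agent.X172.GR.Stm

set_option autoImplicit false

namespace Pool.Agent.X131.GR.REQ

open Pool.Agent.X172.GR

variable {n : ℕ} {T : ℕ → Fin 6}

theorem rd_append : ∀ (u v : List Ltr) (i : ℕ),
    Rd T i (u ++ v) ↔ Rd T i u ∧ Rd T (i + u.length) v
  | [], v, i => by simp [Rd]
  | a :: u, v, i => by
    have h := rd_append u v (i + 1)
    simp only [List.cons_append, Rd, h, List.length_cons]
    rw [show i + 1 + u.length = i + (u.length + 1) by ring]
    tauto

theorem readable_suffix {q w : List Ltr} (h : q <:+ w) (hw : Readable T w) : Readable T q := by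
  obtain ⟨y, rfl⟩ := h
  obtain ⟨i, hi⟩ := hw
  exact ⟨_, ((rd_append y q i).1 hi).2⟩

theorem rd_get : ∀ (z : List Ltr) (i j : ℕ), Rd T i z → j < z.length →
    (z.getD j (0, false)).1 = T (i + j)
  | [], i, j, _, hj => by simp at hj
  | a :: z, i, 0, h, _ => by
    simp only [Rd] at h
    simpa using h.1
  | a :: z, i, j + 1, h, hj => by
    simp only [Rd] at h
    have := rd_get z (i + 1) j h.2 (by simpa using hj)
    rw [List.getD_cons_succ, this]
    congr 1
    ring

theorem suf_unique {w : List Ltr} {h : Option Ltr} {m : ℕ} {z : List Ltr} {h' : Option Ltr}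
    {m' : ℕ} {z' : List Ltr} (H : Suf n T w h m z) (H' : Suf n T w h' m' z') :
    h = h' ∧ m = m' ∧ z = z' := by
  obtain ⟨v, hv, hn, hm, hz, hzl, hw⟩ := H
  obtain ⟨v', hv', hn', hm', hz', hzl', hw'⟩ := H'
  have key : v = v' → z = z' := by
    rintro rfl
    exact (List.suffix_of_suffix_length_le hz hz' (by omega)).eq_of_length (by omega)
  rcases hw with ⟨rfl, rfl⟩ | ⟨a, y, rfl, hw, hna⟩
  · rcases hw' with ⟨rfl, hw'⟩ | ⟨a', y', rfl, hw', hna'⟩
    · refine ⟨rfl, ?_, key hw'⟩
      rw [← hm, ← hm', hw']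
    · exfalso
      apply hna'
      apply readable_suffix _ hv
      rw [hw']
      exact List.suffix_append _ _
  · rcases hw' with ⟨rfl, hw'⟩ | ⟨a', y', rfl, hw', hna'⟩
    · exfalso
      apply hna
      apply readable_suffix _ hv'
      rw [← hw', hw]
      exact List.suffix_append _ _
    · have s1 : a :: v <:+ w := ⟨y, hw.symm⟩
      have s2 : a' :: v' <:+ w := ⟨y', hw'.symm⟩
      have hlen : v.length = v'.length := by
        rcases lt_trichotomy v.length v'.length with hl | hl | hl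
        · exfalso
          apply hna
          apply readable_suffix _ hv'
          exact List.suffix_of_suffix_length_le s1 ((List.suffix_cons a' v').trans s2)
            (by simp; omega)
        · exact hl
        · exfalso
          apply hna'
          apply readable_suffix _ hv
          exact List.suffix_of_suffix_length_le s2 ((List.suffix_cons a v).trans s1)
            (by simp; omega)
      have heq : a :: v = a' :: v' :=
        (List.suffix_of_suffix_length_le s1 s2 (by simp; omega)).eq_of_length (by simp; omega)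
      obtain ⟨rfl, rfl⟩ := List.cons.inj heq
      refine ⟨rfl, ?_, key rfl⟩
      rw [← hm, ← hm']

theorem cond_congr {k a : ℕ} {z z' : List Ltr} (hb : ∀ j, j ≠ a → bit z j = bit z' j)
    (h : Cond n k a z) : Cond n k a z' := by
  rcases h with ⟨h1, h2, h3⟩ | ⟨h1, h2, h3, h4⟩
  · refine Or.inl ⟨h1, h2, ?_⟩
    rcases h3 with h3 | h3
    · exact Or.inl fun j hj hj' => by rw [← hb j (by omega)]; exact h3 j hj hj'
    · exact Or.inr fun j hj hj' => by rw [← hb j (by omega)]; exact h3 j hj hj'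
  · refine Or.inr ⟨h1, h2, ?_, ?_⟩
    · intro j hj hj'
      rw [← hb j (by omega)]
      exact h3 j hj hj'
    · intro j hj hj'
      rw [← hb j (by omega)]
      exact h4 j hj hj'

theorem flip_symm {m : ℕ} {z z' : List Ltr} (h : Flip n T m z z') : Flip n T m z' z := by
  obtain ⟨h1, h2, k, hk, h3, h4, h5, h6, h7⟩ := h
  exact ⟨h2, h1, k, hk, h4, h3, cond_congr h7 h5, fun h => h6 h.symm, fun j hj => (h7 j hj).symm⟩

theorem flip_flip {m : ℕ} {z z' z'' : List Ltr} (h : Flip n T m z z') (h' : Flip n T m z' z'') :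
    z = z'' := by
  obtain ⟨h1, h2, k, hk, h3, h4, h5, h6, h7⟩ := h
  obtain ⟨g1, g2, l, hl, g3, g4, g5, g6, g7⟩ := h'
  apply List.ext_getElem (by omega)
  intro j hj hj'
  have e1 : z[j] = z.getD j (0, false) := by simp [List.getD_eq_getElem?_getD, hj]
  have e2 : z''[j] = z''.getD j (0, false) := by simp [List.getD_eq_getElem?_getD, hj']
  rw [e1, e2]
  refine Prod.ext ?_ ?_
  · rw [rd_get z k j h3 hj, rd_get z'' l j g4 hj', ← rd_get z' k j h4 (by omega),
      ← rd_get z' l j g3 (by omega)]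
  · show bit z j = bit z'' j
    by_cases hja : j = (n - m) % n
    · subst hja
      revert h6 g6
      cases bit z ((n - m) % n) <;> cases bit z' ((n - m) % n) <;>
        cases bit z'' ((n - m) % n) <;> simp
    · rw [h7 j hja, g7 j hja]

theorem zeq_symm {h : Option Ltr} {m : ℕ} {z z' : List Ltr} (H : Zeq n T h m z z') :
    Zeq n T h m z' z := by
  rcases H with rfl | ⟨h1, h2⟩
  · exact Or.inl rfl
  · exact Or.inr ⟨h1, flip_symm h2⟩

theorem zeq_trans {h : Option Ltr} {m : ℕ} {z z' z'' : List Ltr} (H : Zeq n T h m z z')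
    (H' : Zeq n T h m z' z'') : Zeq n T h m z z'' := by
  rcases H with rfl | ⟨h1, h2⟩
  · exact H'
  · rcases H' with rfl | ⟨g1, g2⟩
    · exact Or.inr ⟨h1, h2⟩
    · exact Or.inl (flip_flip h2 g2)

theorem suf_transfer {u w q : List Ltr} {h : Option Ltr} {m : ℕ} {z : List Ltr} (h1 : q <:+ u)
    (h2 : q <:+ w) (h3 : ¬ Readable T q) (H : Suf n T w h m z) : Suf n T u h m z := by
  obtain ⟨v, hv, hn, hm, hz, hzl, hw⟩ := H
  refine ⟨v, hv, hn, hm, hz, hzl, ?_⟩
  rcases hw with ⟨rfl, rfl⟩ | ⟨a, y, rfl, hw, hna⟩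
  · exact absurd (readable_suffix h2 hv) h3
  · right
    have s1 : a :: v <:+ w := ⟨y, hw.symm⟩
    have hl : v.length < q.length := by
      by_contra hcon
      push Not at hcon
      apply h3
      exact readable_suffix (List.suffix_of_suffix_length_le h2 ((List.suffix_cons a v).trans s1)
        hcon) hv
    have s2 : a :: v <:+ q := List.suffix_of_suffix_length_le s1 h2 (by simp; omega)
    obtain ⟨y', hy'⟩ := s2.trans h1
    exact ⟨a, y', rfl, hy'.symm, hna⟩

theorem re_symm {u w : List Ltr} (h : RE n T u w) : RE n T w u := by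
  rcases h with rfl | ⟨q, h1, h2, h3⟩ | ⟨h, m, z, z', h1, h2, h3⟩
  · exact Or.inl rfl
  · exact Or.inr (Or.inl ⟨q, h2, h1, h3⟩)
  · exact Or.inr (Or.inr ⟨h, m, z', z, h2, h1, zeq_symm h3⟩)

theorem re_trans {u w x : List Ltr} (h : RE n T u w) (h' : RE n T w x) : RE n T u x := by
  rcases h with rfl | ⟨q, h1, h2, h3⟩ | ⟨h, m, z, z', h1, h2, h3⟩
  · exact h'
  · rcases h' with rfl | ⟨q', g1, g2, g3⟩ | ⟨g, k, y, y', g1, g2, g3⟩
    · exact Or.inr (Or.inl ⟨q, h1, h2, h3⟩)
    · rcases le_total q.length q'.length with hl | hl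
      · exact Or.inr (Or.inl ⟨q, h1, (List.suffix_of_suffix_length_le h2 g1 hl).trans g2, h3⟩)
      · exact Or.inr (Or.inl ⟨q', (List.suffix_of_suffix_length_le g1 h2 hl).trans h1, g2, g3⟩)
    · exact Or.inr (Or.inr ⟨g, k, y, y', suf_transfer h1 h2 h3 g1, g2, g3⟩)
  · rcases h' with rfl | ⟨q', g1, g2, g3⟩ | ⟨g, k, y, y', g1, g2, g3⟩
    · exact Or.inr (Or.inr ⟨h, m, z, z', h1, h2, h3⟩)
    · exact Or.inr (Or.inr ⟨h, m, z, z', h1, suf_transfer g2 g1 g3 h2, h3⟩)
    · obtain ⟨rfl, rfl, rfl⟩ := suf_unique h2 g1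
      exact Or.inr (Or.inr ⟨_, _, z, y', h1, g2, zeq_trans h3 g3⟩)

theorem re_readable {u w : List Ltr} (h : RE n T u w) : Readable T u ↔ Readable T w := by
  rcases h with rfl | ⟨q, h1, h2, h3⟩ | ⟨h, m, z, z', h1, h2, h3⟩
  · rfl
  · exact ⟨fun h => absurd (readable_suffix h1 h) h3, fun h => absurd (readable_suffix h2 h) h3⟩
  · obtain ⟨v, hv, -, -, -, -, hw⟩ := h1
    obtain ⟨v', hv', -, -, -, -, hw'⟩ := h2
    rcases hw with ⟨rfl, rfl⟩ | ⟨a, y, rfl, rfl, hna⟩
    · rcases hw' with ⟨-, rfl⟩ | ⟨a', y', h4, -, -⟩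
      · exact ⟨fun _ => hv', fun _ => hv⟩
      · exact absurd h4 (by simp)
    · rcases hw' with ⟨h4, -⟩ | ⟨a', y', -, rfl, hna'⟩
      · exact absurd h4 (by simp)
      · exact ⟨fun h => absurd (readable_suffix (List.suffix_append _ _) h) hna,
          fun h => absurd (readable_suffix (List.suffix_append _ _) h) hna'⟩

theorem t : S_REQ := by
  intro n T _ _
  exact ⟨⟨fun _ => Or.inl rfl, fun h => re_symm h, fun h h' => re_trans h h'⟩,
    fun w h m z h' m' z' H H' => suf_unique H H', fun h m z z' z'' H H' => zeq_trans H H',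
    fun h m z z' H => zeq_symm H, fun u w h => re_readable h⟩

end Pool.Agent.X131.GR.REQ
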